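import Pool.Agent.N176.SH.Stm

set_option autoImplicit false

/-!
# Large smooth parts are rare (shifted digits)
-/

namespace Pool.Agent.N897.SH

open Finset Filter Topology
open Pool.Agent.N176.OW (cell kap VT)
open Pool.Agent.N176.SH
open Pool.Agent.H305R2 (roughPart roughPart_prime ZZ ZZ_nonneg ZZ_le_exp)
open Pool.Agent.W66 (large_smooth_count)

theorem rb : S_RB := by
  classical
  intro b A c hOk
  have hb := hOk.hb
  set L := Real.log b with hL
  have hL0 : 0 < L := Real.log_pos (by exact_mod_cast hb)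
  have hb0 : (0 : ℝ) < b := by exact_mod_cast (by omega : 0 < b)
  obtain ⟨P1, hP1⟩ := eventually_atTop.1 (ZZ_le_exp (c := L / 128) (by positivity))
  obtain ⟨P2, hP2⟩ := exists_nat_ge (131072 / L ^ 2)
  refine ⟨L / 128, by positivity, max P1 (max P2 A), ?_⟩
  intro x hx T hT z hz t ht j hj1 hj2
  have hxP1 : P1 ≤ x := le_trans (le_max_left _ _) hx
  have hxP2 : P2 ≤ x := le_trans ((le_max_left _ _).trans (le_max_right _ _)) hx
  have hxA : A ≤ x := le_trans ((le_max_right _ _).trans (le_max_right _ _)) hx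
  set S : ℝ := Real.exp (x * L / 8) with hS
  have hS0 : 0 < S := Real.exp_pos _
  -- the indicator
  set φ : ℕ → ℕ → ℝ := fun p m =>
    if (roughPart p (sh c p m)).Prime ∧ S ≤ ((sh c p m / roughPart p (sh c p m) : ℕ) : ℝ)
      then (1 : ℝ) else 0 with hφ
  have hφ0 : ∀ p m, 0 ≤ φ p m := fun p m => by simp only [hφ]; split_ifs <;> norm_num
  -- numerical bounds
  have hxr : (131072 / L ^ 2 : ℝ) ≤ x := hP2.trans (by exact_mod_cast hxP2)
  have hexp : 3 * (x : ℝ) ≤ Real.exp (L / 128 * x) := by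
    have hx0 : (0 : ℝ) ≤ x := Nat.cast_nonneg x
    have h1 := Real.quadratic_le_exp_of_nonneg (x := L / 128 * x) (by positivity)
    have h2 : 131072 ≤ x * L ^ 2 := by
      rw [div_le_iff₀ (by positivity)] at hxr; exact hxr
    have h3 : (131072 : ℝ) * x ≤ x * L ^ 2 * x := mul_le_mul_of_nonneg_right h2 hx0
    have h4 : 3 * (x : ℝ) ≤ (L / 128 * x) ^ 2 / 2 := by
      have : (L / 128 * x) ^ 2 / 2 = x * L ^ 2 * x / 32768 := by ring
      rw [this, le_div_iff₀ (by norm_num)]
      linarith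
    have h5 : (0 : ℝ) ≤ L / 128 * x := by positivity
    linarith
  -- one exponent
  have hone : ∀ p ∈ T, ∑ n ∈ cell b z t j, φ p (n / b ^ (t - p)) ≤
      3 * Real.exp (-(L / 64 * x)) * (b : ℝ) ^ (t - z) := by
    intro p hp
    obtain ⟨hp1, hp2⟩ := hT p hp
    have hzA : 64 * z ≤ x := (Nat.mul_le_mul_right z hOk.hA).trans hz
    have hzp : z ≤ p := by omega
    -- the shift is small
    have hcp : |c p| < (b : ℤ) ^ (p - z) := by
      have h1 := hOk.size p (by omega)
      have h2 : z ≤ p / A := by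
        rw [Nat.le_div_iff_mul_le (by have := hOk.hA; omega), mul_comm]
        omega
      have hb2 : (1 : ℤ) ≤ b := by exact_mod_cast (by omega : 1 ≤ b)
      have h3 : (b : ℤ) ^ (z + 1) ≤ (b : ℤ) ^ (2 * (p / A) + 1) :=
        pow_le_pow_right₀ hb2 (by omega)
      have h4 : |c p| * (b : ℤ) ^ (z + 1) ≤ (b : ℤ) ^ p :=
        (mul_le_mul_of_nonneg_left h3 (abs_nonneg _)).trans h1
      have h5 : (b : ℤ) ^ p = (b : ℤ) ^ (p - z) * (b : ℤ) ^ z := by
        rw [← pow_add]; congr 1; omega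
      rw [h5] at h4
      have hbz : (0 : ℤ) < (b : ℤ) ^ z := by positivity
      have hbpz : (0 : ℤ) < (b : ℤ) ^ (p - z) := by positivity
      have h6 : |c p| * (b : ℤ) ≤ (b : ℤ) ^ (p - z) := by
        have h7 : (|c p| * (b : ℤ)) * (b : ℤ) ^ z ≤ (b : ℤ) ^ (p - z) * (b : ℤ) ^ z := by
          rw [mul_assoc, ← pow_succ']
          exact h4
        exact le_of_mul_le_mul_right h7 hbz
      have h8 : (2 : ℤ) ≤ b := by exact_mod_cast hb
      have h9 : |c p| * 2 ≤ |c p| * (b : ℤ) := mul_le_mul_of_nonneg_left h8 (abs_nonneg _)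
      have h10 := abs_nonneg (c p)
      omega
    have hpt : p ≤ t := by omega
    have e : b ^ (t - z) = b ^ (p - z) * b ^ (t - p) := by rw [← pow_add]; congr 1; omega
    have e' : (b : ℝ) ^ (t - z) = (b : ℝ) ^ (p - z) * (b : ℝ) ^ (t - p) := by
      exact_mod_cast e
    have h1 : ∑ n ∈ cell b z t j, φ p (n / b ^ (t - p)) =
        ((b ^ (t - p) : ℕ) : ℝ) * ∑ m ∈ Ico (j * b ^ (p - z)) ((j + 1) * b ^ (p - z)), φ p m := by
      unfold cell
      rw [e, ← mul_assoc, ← mul_assoc]
      exact Pool.Agent.N176.GP.sum_div _ _ _ (by positivity)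
        (Nat.mul_le_mul_right _ (Nat.le_succ j)) (φ p)
    have h2 : ∑ m ∈ Ico (j * b ^ (p - z)) ((j + 1) * b ^ (p - z)), φ p m ≤
        (((j + 2) * b ^ (p - z) : ℕ) : ℝ) * (S ^ (-(1 / 2) : ℝ) * ZZ p) := by
      refine le_trans ?_ (large_smooth_count p ((j + 2) * b ^ (p - z)) hS0)
      simp only [hφ]
      rw [← Finset.sum_filter, Finset.sum_const, nsmul_eq_mul, mul_one]
      have habs := abs_lt.1 hcp
      have hj0 : b ^ (p - z) ≤ j * b ^ (p - z) := Nat.le_mul_of_pos_left _ (by omega)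
      have hcard : ((Ico (j * b ^ (p - z)) ((j + 1) * b ^ (p - z))).filter
          (fun n => (roughPart p (sh c p n)).Prime ∧
            S ≤ ((sh c p n / roughPart p (sh c p n) : ℕ) : ℝ))).card ≤
          ((Icc 1 ((j + 2) * b ^ (p - z))).filter
          (fun n => (roughPart p n).Prime ∧ S ≤ ((n / roughPart p n : ℕ) : ℝ))).card := by
        apply Finset.card_le_card_of_injOn (sh c p)
        · intro n hn
          rw [Finset.mem_coe, mem_filter, mem_Ico] at hn
          rw [Finset.mem_coe, mem_filter, mem_Icc]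
          refine ⟨?_, hn.2⟩
          have h3 : (b : ℤ) ^ (p - z) ≤ n := by
            have : b ^ (p - z) ≤ n := hj0.trans hn.1.1
            exact_mod_cast this
          have h4 : (n : ℤ) < (j + 1) * (b : ℤ) ^ (p - z) := by exact_mod_cast hn.1.2
          have h5 : 1 ≤ sh c p n ∧ ((sh c p n : ℕ) : ℤ) ≤ (j + 2) * (b : ℤ) ^ (p - z) := by
            unfold sh
            constructor
            · omega
            · rw [Int.toNat_of_nonneg (by omega)]
              have : ((j : ℤ) + 2) * (b : ℤ) ^ (p - z) =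
                (j + 1) * (b : ℤ) ^ (p - z) + (b : ℤ) ^ (p - z) := by ring
              omega
          exact ⟨h5.1, by exact_mod_cast h5.2⟩
        · intro n hn n' hn' hnn
          rw [Finset.mem_coe, mem_filter, mem_Ico] at hn hn'
          have h3 : (b : ℤ) ^ (p - z) ≤ n := by
            have : b ^ (p - z) ≤ n := hj0.trans hn.1.1
            exact_mod_cast this
          have h3' : (b : ℤ) ^ (p - z) ≤ n' := by
            have : b ^ (p - z) ≤ n' := hj0.trans hn'.1.1
            exact_mod_cast this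
          unfold sh at hnn
          omega
      exact_mod_cast hcard
    have hZ0 := ZZ_nonneg p
    have hX : (((j + 2) * b ^ (p - z) : ℕ) : ℝ) ≤
        3 * Real.exp (L / 32 * x) * (b : ℝ) ^ (p - z) := by
      push_cast
      have h4 : (j : ℝ) ≤ (b : ℝ) ^ (2 * z) := by exact_mod_cast hj2
      have h5 : (b : ℝ) ^ (2 * z) = Real.exp (L * (2 * z)) := by
        have hbe : (b : ℝ) = Real.exp L := (Real.exp_log hb0).symm
        rw [hbe, ← Real.exp_nat_mul]
        congr 1
        push_cast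
        ring
      have h6 : (b : ℝ) ^ (2 * z) ≤ Real.exp (L / 32 * x) := by
        rw [h5]
        apply Real.exp_le_exp.mpr
        have h7 : (64 : ℝ) * z ≤ x := by exact_mod_cast hzA
        have h8 : L * (64 * (z : ℝ)) ≤ L * x := mul_le_mul_of_nonneg_left h7 hL0.le
        linarith
      have h9 : (1 : ℝ) ≤ Real.exp (L / 32 * x) := Real.one_le_exp (by positivity)
      have h10 : (j : ℝ) + 2 ≤ 3 * Real.exp (L / 32 * x) := by linarith
      exact mul_le_mul_of_nonneg_right h10 (by positivity)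
    have hSe : S ^ (-(1 / 2) : ℝ) = Real.exp (-(L / 16 * x)) := by
      rw [hS, ← Real.exp_mul]
      congr 1
      ring
    have hZ : ZZ p ≤ Real.exp (L / 64 * x) := by
      refine (hP1 p (by omega)).trans (Real.exp_le_exp.mpr ?_)
      have h7 : (p : ℝ) ≤ 2 * x := by exact_mod_cast hp2
      have h8 : L / 128 * (p : ℝ) ≤ L / 128 * (2 * x) :=
        mul_le_mul_of_nonneg_left h7 (by positivity)
      linarith
    rw [h1]
    push_cast
    calc (b : ℝ) ^ (t - p) * ∑ m ∈ Ico (j * b ^ (p - z)) ((j + 1) * b ^ (p - z)), φ p m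
        ≤ (b : ℝ) ^ (t - p) * ((((j + 2) * b ^ (p - z) : ℕ) : ℝ) *
            (S ^ (-(1 / 2) : ℝ) * ZZ p)) := by gcongr
      _ ≤ (b : ℝ) ^ (t - p) * ((3 * Real.exp (L / 32 * x) * (b : ℝ) ^ (p - z)) *
            (Real.exp (-(L / 16 * x)) * Real.exp (L / 64 * x))) := by
          rw [hSe]; gcongr
      _ = 3 * (Real.exp (L / 32 * x) * Real.exp (-(L / 16 * x)) * Real.exp (L / 64 * x)) *
            ((b : ℝ) ^ (p - z) * (b : ℝ) ^ (t - p)) := by ring
      _ = 3 * Real.exp (-(L / 64 * x)) * (b : ℝ) ^ (t - z) := by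
          rw [← Real.exp_add, ← Real.exp_add, e']
          congr 3
          ring
  -- the union
  have hcard : (T.card : ℝ) ≤ x := by
    have h1 : T ⊆ Ioc x (2 * x) := fun p hp => mem_Ioc.mpr (hT p hp)
    have h2 := Finset.card_le_card h1
    rw [Nat.card_Ioc] at h2
    exact_mod_cast (by omega : T.card ≤ x)
  have hbig : (((cell b z t j).filter (fun n => Big c T b t x n)).card : ℝ) ≤
      ∑ p ∈ T, ∑ n ∈ cell b z t j, φ p (n / b ^ (t - p)) := by
    rw [Finset.sum_comm, ← nsmul_one, ← Finset.sum_const, Finset.sum_filter]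
    refine Finset.sum_le_sum fun n _ => ?_
    split_ifs with h
    · obtain ⟨p, hp, h1, h2⟩ := h
      have h3 : φ p (n / b ^ (t - p)) = 1 := if_pos ⟨h1, h2⟩
      rw [← h3]
      exact Finset.single_le_sum (f := fun p => φ p (n / b ^ (t - p))) (fun p _ => hφ0 p _) hp
    · exact Finset.sum_nonneg fun p _ => hφ0 p _
  have hbt : (0 : ℝ) < (b : ℝ) ^ (t - z) := by positivity
  calc _ ≤ ∑ p ∈ T, ∑ n ∈ cell b z t j, φ p (n / b ^ (t - p)) := hbig
    _ ≤ ∑ p ∈ T, 3 * Real.exp (-(L / 64 * x)) * (b : ℝ) ^ (t - z) := Finset.sum_le_sum hone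
    _ = T.card * (3 * Real.exp (-(L / 64 * x)) * (b : ℝ) ^ (t - z)) := by
        rw [Finset.sum_const, nsmul_eq_mul]
    _ ≤ x * (3 * Real.exp (-(L / 64 * x)) * (b : ℝ) ^ (t - z)) := by gcongr
    _ = 3 * x * Real.exp (-(L / 64 * x)) * (b : ℝ) ^ (t - z) := by ring
    _ ≤ Real.exp (L / 128 * x) * Real.exp (-(L / 64 * x)) * (b : ℝ) ^ (t - z) := by gcongr
    _ = Real.exp (-(L / 128 * x)) * (b : ℝ) ^ (t - z) := by
        rw [← Real.exp_add]
        congr 2
        ring

end Pool.Agent.N897.SH
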